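import Pool.Agent.helper95.T6.SpecE

set_option autoImplicit false

namespace Pool.Agent.T6

open Finset Pool.Agent.helper3.FT Pool.Agent.T5

theorem EPN_cls (M d : ℕ) (hd : 1 ≤ d) (hdM : d ≤ M) (T : Finset ℕ) (hT : ∀ x ∈ T, x ≤ M)
    (hc : ∀ x ∈ T, ∀ x' ∈ T, (d : ℤ) ∣ (x : ℤ) - x') : (T.card : ℝ) ≤ 2 * (M : ℝ) / d := by
  have h1 : T.card ≤ (range (M / d + 1)).card := by
    refine Finset.card_le_card_of_injOn (fun x => x / d) ?_ ?_
    · intro x hx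
      have := hT x hx
      simp only [Finset.coe_range, Set.mem_Iio]
      exact Nat.lt_succ_of_le (Nat.div_le_div_right this)
    · intro x hx x' hx' hxx
      have h2 := hc x hx x' hx'
      have h3 : x % d = x' % d := by
        have h4 : (x : ℤ) ≡ x' [ZMOD d] := (Int.modEq_iff_dvd.2 (by
          have := (dvd_neg (α := ℤ)).2 h2
          rwa [neg_sub] at this))
        have h5 : x ≡ x' [MOD d] := (Int.natCast_modEq_iff).1 h4
        exact h5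
      have h6 : x / d = x' / d := hxx
      calc x = d * (x / d) + x % d := (Nat.div_add_mod x d).symm
        _ = d * (x' / d) + x' % d := by rw [h6, h3]
        _ = x' := Nat.div_add_mod x' d
  rw [Finset.card_range] at h1
  have hd' : (0 : ℝ) < d := by exact_mod_cast hd
  have h2 : (T.card : ℝ) ≤ ((M / d : ℕ) : ℝ) + 1 := by exact_mod_cast h1
  have h3 : ((M / d : ℕ) : ℝ) ≤ (M : ℝ) / d := Nat.cast_div_le
  have h4 : (1 : ℝ) ≤ (M : ℝ) / d := by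
    rw [le_div_iff₀ hd', one_mul]
    exact_mod_cast hdM
  calc (T.card : ℝ) ≤ (M : ℝ) / d + (M : ℝ) / d := by linarith
    _ = 2 * (M : ℝ) / d := by ring

theorem EPN_one (M e : ℕ) (he : 1 ≤ e) (heM : e ≤ M) :
    (((Icc 1 M).filter (fun x : ℕ => (e : ℤ) ∣ (x : ℤ) - 1)).card : ℝ) ≤ 2 * (M : ℝ) / e := by
  refine EPN_cls M e he heM _ ?_ ?_
  · intro x hx
    exact (mem_Icc.1 (mem_filter.1 hx).1).2
  · intro x hx x' hx'
    have h1 := (mem_filter.1 hx).2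
    have h2 := (mem_filter.1 hx').2
    have := dvd_sub h1 h2
    rwa [sub_sub_sub_cancel_right] at this

theorem EPN_two (M e y : ℕ) (he : 1 ≤ e) (hy : 1 ≤ y) (hc : Nat.Coprime y e) (heM : e * y ≤ M) :
    (((Icc 1 M).filter (fun x : ℕ => (e : ℤ) ∣ (x : ℤ) - 1 ∧ y ∣ x)).card : ℝ) ≤ 2 * (M : ℝ) / (e * y) := by
  have h0 := EPN_cls M (e * y) (Nat.mul_pos he hy) heM
    ((Icc 1 M).filter (fun x : ℕ => (e : ℤ) ∣ (x : ℤ) - 1 ∧ y ∣ x)) ?_ ?_
  · rwa [Nat.cast_mul] at h0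
  · intro x hx
    exact (mem_Icc.1 (mem_filter.1 hx).1).2
  · intro x hx x' hx'
    have h1 := (mem_filter.1 hx).2
    have h2 := (mem_filter.1 hx').2
    have h3 : (e : ℤ) ∣ (x : ℤ) - x' := by
      have := dvd_sub h1.1 h2.1
      rwa [sub_sub_sub_cancel_right] at this
    have h4 : (y : ℤ) ∣ (x : ℤ) - x' :=
      dvd_sub (Int.natCast_dvd_natCast.2 h1.2) (Int.natCast_dvd_natCast.2 h2.2)
    have h5 : IsCoprime (e : ℤ) (y : ℤ) := Nat.isCoprime_iff_coprime.2 hc.symm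
    have h6 := h5.mul_dvd h3 h4
    rwa [← Nat.cast_mul] at h6

open Classical in
theorem EPN : EPN_stmt := by
  intro N K e y he hy hcop hN hK
  have he' : (0 : ℝ) < e := by exact_mod_cast he
  have hN0 : (0 : ℝ) ≤ N := Nat.cast_nonneg N
  have hK0 : (0 : ℝ) ≤ K := Nat.cast_nonneg K
  rcases hy with rfl | hyp
  · rw [mul_one] at hN hK
    have h1 := EPN_one N e he hN
    have h2 := EPN_one K e he hK
    have hsub : (pairs N K 1).filter (fun p => (e : ℤ) ∣ (p.1 : ℤ) - 1 ∧ (e : ℤ) ∣ (p.2 : ℤ) - 1) ⊆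
        ((Icc 1 N).filter (fun x : ℕ => (e : ℤ) ∣ (x : ℤ) - 1)) ×ˢ
          ((Icc 1 K).filter (fun x : ℕ => (e : ℤ) ∣ (x : ℤ) - 1)) := by
      intro p hp
      rw [mem_filter] at hp
      obtain ⟨hp1, hp2, hp3⟩ := hp
      unfold pairs at hp1
      rw [mem_filter, mem_product] at hp1
      rw [mem_product, mem_filter, mem_filter]
      exact ⟨⟨hp1.1.1, hp2⟩, ⟨hp1.1.2, hp3⟩⟩
    have h3 := Finset.card_le_card hsub
    rw [Finset.card_product] at h3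
    have h4 : (((pairs N K 1).filter (fun p => (e : ℤ) ∣ (p.1 : ℤ) - 1 ∧ (e : ℤ) ∣ (p.2 : ℤ) - 1)).card : ℝ) ≤
        (((Icc 1 N).filter (fun x : ℕ => (e : ℤ) ∣ (x : ℤ) - 1)).card : ℝ) *
          (((Icc 1 K).filter (fun x : ℕ => (e : ℤ) ∣ (x : ℤ) - 1)).card : ℝ) := by exact_mod_cast h3
    calc _ ≤ _ := h4
      _ ≤ (2 * (N : ℝ) / e) * (2 * (K : ℝ) / e) := by gcongr
      _ = 4 * ((N : ℝ) * K) / (e : ℝ) ^ 2 := by
        field_simp
        ring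
      _ ≤ 8 * ((N : ℝ) * K) / ((e : ℝ) ^ 2 * ((1 : ℕ) : ℝ)) := by
        rw [Nat.cast_one, mul_one]
        gcongr
        norm_num
  · have hy1 : 1 ≤ y := hyp.one_lt.le
    have hy' : (0 : ℝ) < y := by exact_mod_cast hy1
    have heN : e ≤ N := le_trans (Nat.le_mul_of_pos_right e hy1) hN
    have heK : e ≤ K := le_trans (Nat.le_mul_of_pos_right e hy1) hK
    have h1 := EPN_one N e he heN
    have h2 := EPN_one K e he heK
    have h1' := EPN_two N e y he hy1 hcop hN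
    have h2' := EPN_two K e y he hy1 hcop hK
    have hsub : (pairs N K y).filter (fun p => (e : ℤ) ∣ (p.1 : ℤ) - 1 ∧ (e : ℤ) ∣ (p.2 : ℤ) - 1) ⊆
        (((Icc 1 N).filter (fun x : ℕ => (e : ℤ) ∣ (x : ℤ) - 1 ∧ y ∣ x)) ×ˢ
          ((Icc 1 K).filter (fun x : ℕ => (e : ℤ) ∣ (x : ℤ) - 1))) ∪
        (((Icc 1 N).filter (fun x : ℕ => (e : ℤ) ∣ (x : ℤ) - 1)) ×ˢ
          ((Icc 1 K).filter (fun x : ℕ => (e : ℤ) ∣ (x : ℤ) - 1 ∧ y ∣ x))) := by
      intro p hp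
      rw [mem_filter] at hp
      obtain ⟨hp1, hp2, hp3⟩ := hp
      unfold pairs at hp1
      rw [mem_filter, mem_product] at hp1
      rw [mem_union, mem_product, mem_product, mem_filter, mem_filter, mem_filter, mem_filter]
      rcases (hyp.dvd_mul).1 hp1.2.2.2.2 with h | h
      · exact Or.inl ⟨⟨hp1.1.1, hp2, h⟩, ⟨hp1.1.2, hp3⟩⟩
      · exact Or.inr ⟨⟨hp1.1.1, hp2⟩, ⟨hp1.1.2, hp3, h⟩⟩
    have h3 := (Finset.card_le_card hsub).trans (Finset.card_union_le _ _)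
    rw [Finset.card_product, Finset.card_product] at h3
    have h4 : (((pairs N K y).filter (fun p => (e : ℤ) ∣ (p.1 : ℤ) - 1 ∧ (e : ℤ) ∣ (p.2 : ℤ) - 1)).card : ℝ) ≤
        (((Icc 1 N).filter (fun x : ℕ => (e : ℤ) ∣ (x : ℤ) - 1 ∧ y ∣ x)).card : ℝ) *
          (((Icc 1 K).filter (fun x : ℕ => (e : ℤ) ∣ (x : ℤ) - 1)).card : ℝ) +
        (((Icc 1 N).filter (fun x : ℕ => (e : ℤ) ∣ (x : ℤ) - 1)).card : ℝ) *
          (((Icc 1 K).filter (fun x : ℕ => (e : ℤ) ∣ (x : ℤ) - 1 ∧ y ∣ x)).card : ℝ) := by exact_mod_cast h3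
    calc _ ≤ _ := h4
      _ ≤ (2 * (N : ℝ) / (e * y)) * (2 * (K : ℝ) / e) + (2 * (N : ℝ) / e) * (2 * (K : ℝ) / (e * y)) := by gcongr
      _ = 8 * ((N : ℝ) * K) / ((e : ℝ) ^ 2 * y) := by
        field_simp
        ring

end Pool.Agent.T6
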